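import Pool.Agent.Y958.RM.Main

set_option autoImplicit false

/-! Hooley's variance conjecture for random moduli: few elements of a set which meets every `[x, l x]`. -/

namespace Pool.Agent.Y958.RM
open Finset
open Pool.Agent.H373R2.T7
open Pool.Agent.W93.DG
open Pool.Agent.Y885
open Pool.Agent.TH894.PV (G)

/-- the numbers of positions -/
lemma any_num (b H : ℕ) (hb : 2 ≤ b) : ∃ N₀ : ℕ, ∀ N : ℕ, N₀ ≤ N →
    ((eH b H (Nat.log b N + 1) : ℕ) : ℝ) ≤ ((4 * H + 2 : ℕ) : ℝ) * Real.log (Real.log N) ∧ 2 * b ≤ Nat.log b N + 1 ∧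
    Real.log N ≤ ((Nat.log b N + 1 : ℕ) : ℝ) ^ 2 := by
  obtain ⟨n1, h1⟩ := ev_L' 3
  refine ⟨n1 + b ^ (2 * b) + 1, fun N hN => ?_⟩
  have a1 := h1 N (by omega)
  obtain ⟨k, hk⟩ : ∃ k, k = Nat.log b N + 1 := ⟨_, rfl⟩
  rw [← hk]
  have hN0 : N ≠ 0 := by omega
  have hNr : (0 : ℝ) < N := by exact_mod_cast Nat.pos_of_ne_zero hN0
  have hk2 : 2 * b ≤ k := by
    have : 2 * b ≤ Nat.log b N := Nat.le_log_of_pow_le (by omega) (by omega)
    omega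
  have hkr : (0 : ℝ) < k := by exact_mod_cast (by omega : 0 < k)
  have hkL : (k : ℝ) ≤ Real.log N ^ 2 := by
    have g1 : (2 : ℝ) ^ Nat.log b N ≤ N := by
      have g2 : 2 ^ Nat.log b N ≤ N := (Nat.pow_le_pow_left hb _).trans (Nat.pow_log_le_self b hN0)
      exact_mod_cast g2
    have g3 := Real.log_le_log (by positivity) g1
    rw [Real.log_pow] at g3
    have g4 := Real.log_two_gt_d9
    have g5 : (0 : ℝ) ≤ (Nat.log b N : ℝ) := Nat.cast_nonneg _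
    rw [hk]
    push_cast
    nlinarith
  have hlogk : Real.log k ≤ 2 * Real.log (Real.log N) := by
    have g1 := Real.log_le_log hkr hkL
    rw [Real.log_pow] at g1
    push_cast at g1
    exact g1
  have hloglog : 1 ≤ Real.log (Real.log N) := by
    rw [Real.le_log_iff_exp_le (by linarith)]
    have := Real.exp_one_lt_d9
    linarith
  refine ⟨?_, hk2, ?_⟩
  · have g1 : (Nat.log b (k ^ H) : ℝ) ≤ 2 * H * Real.log k := by
      have h2 : b ^ Nat.log b (k ^ H) ≤ k ^ H := Nat.pow_log_le_self b (pow_ne_zero _ (by omega))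
      have h3 : (2 : ℝ) ^ Nat.log b (k ^ H) ≤ (k : ℝ) ^ H := by
        exact_mod_cast (Nat.pow_le_pow_left hb _).trans h2
      have h4 := Real.log_le_log (by positivity) h3
      rw [Real.log_pow, Real.log_pow] at h4
      have h5 := Real.log_two_gt_d9
      have h6 : (0 : ℝ) ≤ (Nat.log b (k ^ H) : ℝ) := Nat.cast_nonneg _
      nlinarith
    unfold eH
    push_cast
    have h7 : (0 : ℝ) ≤ (H : ℝ) := Nat.cast_nonneg _
    nlinarith
  · have g1 : N < b ^ k := by rw [hk]; exact Nat.lt_pow_succ_log_self (by omega) _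
    have g2 : Real.log N ≤ Real.log ((b ^ k : ℕ) : ℝ) := Real.log_le_log hNr (by exact_mod_cast g1.le)
    have g3 := (logX b k hb).2
    have g4 : (b : ℝ) ≤ k := by exact_mod_cast (by omega : b ≤ k)
    nlinarith

theorem any (hLASH : LASH) (hCOR : COR) (l κ : ℕ) (hl : 2 ≤ l) : ∃ C : ℝ, ∀ ε : ℝ, 0 < ε → ε ≤ 1 → ∃ N₀ : ℕ, ∀ A : Set ℕ,
    (∀ x : ℕ, 1 ≤ x → ∃ a ∈ A, x ≤ a ∧ a ≤ l * x) → ∀ N : ℕ, N₀ ≤ N →
    ∃ S : Finset ℕ, (∀ a ∈ S, a ∈ A) ∧ (S.card : ℝ) ≤ C * Real.log (Real.log N) ^ 2 ∧ 2 * ∑ a ∈ S, a ≤ N ∧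
      ∀ x : ℝ, ((N - ∑ a ∈ S, a : ℕ) : ℝ) ≤ x → x ≤ ((N - ∑ a ∈ S, a : ℕ) : ℝ) * Real.log N ^ κ →
        |G x (N - ∑ a ∈ S, a) - x * Real.log ((N - ∑ a ∈ S, a : ℕ) : ℝ)| ≤ ε * (x * Real.log ((N - ∑ a ∈ S, a : ℕ) : ℝ)) := by
  classical
  obtain ⟨V, hV⟩ := main hCOR (2 * κ + 1) 1 (4 * l) 20 (by omega) (by norm_num)
  obtain ⟨C, hC⟩ := hLASH l hl V
  refine ⟨C, fun ε hε hε1 => ?_⟩
  obtain ⟨b, hb⟩ : ∃ b, b = 4 * l := ⟨_, rfl⟩
  obtain ⟨H, hH⟩ : ∃ H, H = 2 * (2 * κ + 1 + 1) := ⟨_, rfl⟩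
  rw [← hH, ← hb] at hV
  obtain ⟨c, N1, hc⟩ := hC (4 * H + 2)
  rw [← hb] at hc
  obtain ⟨k0, h0⟩ := hV ε hε hε1 c
  obtain ⟨N2, h2⟩ := any_num b H (by omega)
  refine ⟨N1 + N2 + b ^ (k0 + 1) + 1, fun A hA N hN => ?_⟩
  obtain ⟨f1, f2, f3⟩ := h2 N (by omega)
  obtain ⟨k, hk⟩ : ∃ k, k = Nat.log b N + 1 := ⟨_, rfl⟩
  rw [← hk] at f1 f2 f3
  have hN0 : N ≠ 0 := by omega
  have hkk : k0 ≤ k := by
    have : k0 + 1 ≤ Nat.log b N := Nat.le_log_of_pow_le (by omega) (by omega)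
    omega
  have hNk : N < b ^ k := by rw [hk]; exact Nat.lt_pow_succ_log_self (by omega) _
  have hNk2 : b ^ k ≤ b * N := by
    rw [hk, pow_succ']
    exact Nat.mul_le_mul_left _ (Nat.pow_log_le_self b hN0)
  obtain ⟨S, s1, s2, s3, s4⟩ := hc A hA N (by omega) (eH b H k) f1 (fun Q : ℤ => ∀ x : ℝ, (Q : ℝ) ≤ x → x ≤ Q * Real.log N ^ κ →
      |G x Q.toNat - x * Real.log Q| ≤ ε * (x * Real.log Q)) (by
    intro ι Ω p Y hp hlaw hY bad hdec hbad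
    rw [← hk] at hlaw
    have hlog0 : 0 ≤ Real.log N := Real.log_natCast_nonneg _
    refine (h0 k hkk ι Ω p Y hp hlaw (fun ω hω => ?_) bad hdec (fun ω hω hbω => ?_)).trans ?_
    · obtain ⟨y1, y2⟩ := hY ω hω
      have e1 : (N : ℤ) ≤ (b : ℤ) ^ k := by exact_mod_cast hNk.le
      have e2 : (0 : ℤ) ≤ N := Int.natCast_nonneg _
      rw [abs_le]
      constructor <;> linarith
    · obtain ⟨y1, y2⟩ := hY ω hω
      have e2 : (0 : ℤ) ≤ N := Int.natCast_nonneg _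
      have hY0 : 0 ≤ Y ω := by linarith
      have hb' := hbad ω hω hbω
      push Not at hb'
      obtain ⟨x, x1, x2, x3⟩ := hb'
      refine ⟨?_, x, x1, x2.trans ?_, not_le.2 x3⟩
      · have e3 : (b : ℤ) ^ k ≤ b * N := by exact_mod_cast hNk2
        have e4 : (b : ℤ) * N ≤ (2 * b : ℤ) * Y ω := by
          have : (b : ℤ) * N ≤ b * (2 * Y ω) := mul_le_mul_of_nonneg_left y1 (by positivity)
          linarith
        have e5 : (2 * b : ℤ) * Y ω ≤ k * Y ω := mul_le_mul_of_nonneg_right (by exact_mod_cast f2) hY0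
        have e6 : (k : ℤ) ≤ (k : ℤ) ^ (2 * κ + 1) := by
          calc (k : ℤ) = (k : ℤ) ^ 1 := (pow_one _).symm
            _ ≤ (k : ℤ) ^ (2 * κ + 1) := pow_le_pow_right₀ (by exact_mod_cast (by omega : 1 ≤ k)) (by omega)
        have e7 : (k : ℤ) * Y ω ≤ (k : ℤ) ^ (2 * κ + 1) * Y ω := mul_le_mul_of_nonneg_right e6 hY0
        linarith
      · apply mul_le_mul_of_nonneg_left _ (by exact_mod_cast hY0)
        have e1 : (1 : ℝ) ≤ k := by exact_mod_cast (by omega : 1 ≤ k)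
        calc Real.log N ^ κ ≤ ((k : ℝ) ^ 2) ^ κ := pow_le_pow_left₀ hlog0 f3 _
          _ = (k : ℝ) ^ (2 * κ) := by rw [pow_mul]
          _ ≤ (k : ℝ) ^ (2 * κ + 1) := pow_le_pow_right₀ e1 (by omega)
    · rw [pow_one]
      apply one_div_le_one_div_of_le (by norm_num)
      exact_mod_cast (by omega : 2 ≤ k))
  refine ⟨S, s1, s2, s3, fun x x1 x2 => ?_⟩
  have hSN : ∑ a ∈ S, a ≤ N := by omega
  have e1 : (N : ℤ) - ((∑ a ∈ S, a : ℕ) : ℤ) = ((N - ∑ a ∈ S, a : ℕ) : ℤ) := by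
    rw [Nat.cast_sub hSN]
  have e2 := s4 x
  rw [e1, Int.toNat_natCast, Int.cast_natCast] at e2
  exact e2 x1 x2

end Pool.Agent.Y958.RM
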