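import Pool.Agent.Y958.RM.Stm

set_option autoImplicit false

/-! Hooley's variance conjecture for random moduli: the correlations. -/

namespace Pool.Agent.Y958.RM
open Finset
open Pool.Agent.H373R2.T7
open Pool.Agent.W93.DG
open Pool.Agent.Y885

/-- the correlation up to `M` -/
noncomputable def SS (z : ℕ) (y : ℤ) (M : ℕ) : ℝ :=
  ∑ n ∈ Icc 1 M, ArithmeticFunction.vonMangoldt n * (lamI ((n : ℤ) + y) - lamzI z ((n : ℤ) + y))

lemma SS_trunc (z : ℕ) (y : ℤ) (M N : ℕ) (h : M ≤ N) :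
    SS z y M = ∑ n ∈ Icc 1 N, (if n ≤ M then ArithmeticFunction.vonMangoldt n else 0) * (lamI ((n : ℤ) + y) - lamzI z ((n : ℤ) + y)) := by
  unfold SS
  have h1 : Icc 1 M = (Icc 1 N).filter (fun n => n ≤ M) := by
    ext n
    rw [mem_filter, mem_Icc, mem_Icc]
    omega
  rw [h1, sum_filter]
  apply sum_congr rfl
  intro n _
  split_ifs
  · rfl
  · rw [zero_mul]

lemma SS_step (z : ℕ) (y : ℤ) (i s N₁ X : ℕ) (L : ℝ) (hi : i = N₁ / s) (hs : 1 ≤ s) (hX1 : 1 ≤ X) (hX : (N₁ : ℤ) + y ≤ X) (hNX : N₁ ≤ X)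
    (hL : Real.log (X : ℝ) = L) (hV : (Vz z)⁻¹ ≤ L) : |SS z y N₁| ≤ |SS z y (i * s)| + s * (2 * L ^ 2) := by
  have hjs : i * s ≤ N₁ := by rw [hi]; exact Nat.div_mul_le_self _ _
  have hjs2 : N₁ < i * s + s := by
    rw [hi]
    exact Nat.lt_div_mul_add (a := N₁) (b := s) hs
  have hX1r : (1 : ℝ) ≤ X := by exact_mod_cast hX1
  have hV0 : 0 ≤ (Vz z)⁻¹ := (inv_pos.2 (Vz_pos z)).le
  have hL0 : 0 ≤ L := hV0.trans hV
  have h1 : SS z y N₁ = SS z y (i * s) + ∑ n ∈ Ioc (i * s) N₁, ArithmeticFunction.vonMangoldt n * (lamI ((n : ℤ) + y) - lamzI z ((n : ℤ) + y)) := by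
    unfold SS
    have e1 : Icc 1 N₁ = Ioc 0 N₁ := rfl
    have e2 : Icc 1 (i * s) = Ioc 0 (i * s) := rfl
    rw [e1, e2, Finset.sum_Ioc_consecutive _ (Nat.zero_le _) hjs]
  rw [h1]
  refine (abs_add_le _ _).trans ?_
  apply add_le_add le_rfl
  refine (abs_sum_le_sum_abs _ _).trans ?_
  have h2 : ∀ n ∈ Ioc (i * s) N₁, |ArithmeticFunction.vonMangoldt n * (lamI ((n : ℤ) + y) - lamzI z ((n : ℤ) + y))| ≤ 2 * L ^ 2 := by
    intro n hn
    rw [mem_Ioc] at hn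
    rw [abs_mul]
    have g1 : |ArithmeticFunction.vonMangoldt n| ≤ L := by
      rw [abs_of_nonneg ArithmeticFunction.vonMangoldt_nonneg]
      refine ArithmeticFunction.vonMangoldt_le_log.trans ?_
      rw [← hL]
      exact Real.log_le_log (by exact_mod_cast (by omega : 0 < n)) (by exact_mod_cast (by omega : n ≤ X))
    have g2 : |lamI ((n : ℤ) + y) - lamzI z ((n : ℤ) + y)| ≤ 2 * L := by
      refine (abs_sub _ _).trans ?_
      rw [abs_of_nonneg (lamI_nonneg _), abs_of_nonneg (lamzI_nonneg _ _)]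
      have g3 : lamI ((n : ℤ) + y) ≤ L := by
        rw [← hL]
        apply lamI_le _ _ hX1r
        have g4 : (n : ℤ) + y ≤ (X : ℤ) := by
          have : (n : ℤ) ≤ N₁ := by exact_mod_cast hn.2
          linarith
        exact_mod_cast g4
      have g5 := (lamzI_le z ((n : ℤ) + y)).trans hV
      linarith
    calc _ ≤ L * (2 * L) := mul_le_mul g1 g2 (abs_nonneg _) hL0
      _ = 2 * L ^ 2 := by ring
  refine (sum_le_sum h2).trans ?_
  rw [sum_const, Nat.card_Ioc, nsmul_eq_mul]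
  apply mul_le_mul_of_nonneg_right _ (by positivity)
  exact_mod_cast (by omega : N₁ - i * s ≤ s)

lemma fin_one {ι : Type} (Ω : Finset ι) (F : (Fin 1 → ι) → ℝ) :
    ∑ ω ∈ Fintype.piFinset (fun _ : Fin 1 => Ω), F ω = ∑ v ∈ Ω, F (fun _ => v) := by
  symm
  apply sum_bij (fun v _ => fun _ : Fin 1 => v)
  · intro v hv
    rw [Fintype.mem_piFinset]
    exact fun _ => hv
  · intro v _ v' _ h
    exact congrFun h 0
  · intro ω hω
    rw [Fintype.mem_piFinset] at hω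
    refine ⟨ω 0, hω 0, ?_⟩
    funext i
    rw [Subsingleton.elim i 0]
  · intro v _
    rfl

lemma pow_two_ev (m : ℕ) : ∃ k₀ : ℕ, ∀ k : ℕ, k₀ ≤ k → k ^ m ≤ 2 ^ k := by
  have h := (tendsto_pow_const_div_const_pow_of_one_lt m (r := (2 : ℝ)) (by norm_num)).eventually_le_const (show (0 : ℝ) < 1 by norm_num)
  rw [Filter.eventually_atTop] at h
  obtain ⟨k₀, hk₀⟩ := h
  refine ⟨k₀, fun k hk => ?_⟩
  have h1 := hk₀ k hk
  rw [div_le_one (by positivity)] at h1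
  exact_mod_cast h1

/-- the expectation for one multiple and one length -/
lemma cor_one (b E c U' B0 Ez : ℕ) (hb : 2 ≤ b) (k1 : ℕ)
    (h1 : ∀ K : ℕ, k1 ≤ K → ∀ (α : Type) (_ : DecidableEq α) (Ω : Fin 1 → Finset α) (p : Fin 1 → α → ℝ) (Y : Fin 1 → α → ℤ),
      (∀ i, TLaw b E c (2 * (U' + 1 + 2) + 6) K (Ω i) (p i) (Y i)) → (∀ i, ∑ v ∈ Ω i, p i v = 1) →
      ∀ N : ℕ, b ^ K ≤ b * N → N ≤ b ^ K → (∀ i, ∀ v ∈ Ω i, -(b : ℤ) ^ K < Y i v ∧ N + Y i v ≤ (b : ℤ) ^ K) →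
      ∀ z : ℕ, Real.log N ^ B0 ≤ z → (z : ℝ) ≤ Real.log N ^ Ez →
      ∀ g : ℕ → ℝ, (∀ n ∈ Icc 1 N, |g n| ≤ Real.log ((b ^ K : ℕ) : ℝ)) →
      ∑ ω ∈ Fintype.piFinset Ω, (∏ i, p i (ω i)) * |∑ n ∈ Icc 1 N, g n *
          (∏ i, lamI ((n : ℤ) + Y i (ω i)) - ∏ i, lamzI z ((n : ℤ) + Y i (ω i)))| ≤ N / Real.log N ^ U')
    (K : ℕ) (hK : k1 ≤ K) (hK1 : 1 ≤ K) (ι : Type) (Ω : Finset ι) (p : ι → ℝ) (y : ι → ℤ) (hp : ∑ ω ∈ Ω, p ω = 1)
    (hlaw : TLaw b E c (2 * (U' + 1 + 2) + 6) K Ω p y) (hy : ∀ ω ∈ Ω, |y ω| ≤ (b : ℤ) ^ (K - 1))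
    (z : ℕ) (hz1 : Real.log ((b ^ (K - 1) : ℕ) : ℝ) ^ B0 ≤ z) (hz2 : (z : ℝ) ≤ Real.log ((b ^ (K - 1) : ℕ) : ℝ) ^ Ez)
    (M : ℕ) (hM : M ≤ b ^ (K - 1)) :
    ∑ ω ∈ Ω, p ω * |SS z (y ω) M| ≤ ((b ^ (K - 1) : ℕ) : ℝ) / Real.log ((b ^ (K - 1) : ℕ) : ℝ) ^ U' := by
  classical
  have hbK : b ^ K = b * b ^ (K - 1) := by
    rw [← pow_succ']
    congr 1
    omega
  have hle : b ^ (K - 1) ≤ b ^ K := Nat.pow_le_pow_right (by omega) (by omega)
  have h2 := h1 K hK ι inferInstance (fun _ => Ω) (fun _ => p) (fun _ => y) (fun _ => hlaw) (fun _ => hp) (b ^ (K - 1)) hbK.le hle (by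
    intro _ ω hω
    have g1 := hy ω hω
    rw [abs_le] at g1
    have g2 : (0 : ℤ) < (b : ℤ) ^ (K - 1) := by positivity
    have g3 : (b : ℤ) ^ K = b * (b : ℤ) ^ (K - 1) := by exact_mod_cast hbK
    have g4 : (2 : ℤ) ≤ b := by exact_mod_cast hb
    have g5 : 2 * (b : ℤ) ^ (K - 1) ≤ b * (b : ℤ) ^ (K - 1) := mul_le_mul_of_nonneg_right g4 g2.le
    push_cast
    rw [g3]
    constructor <;> linarith [g1.1, g1.2]) z hz1 hz2 (fun n => if n ≤ M then ArithmeticFunction.vonMangoldt n else 0) (by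
    intro n hn
    rw [mem_Icc] at hn
    have g0 : 0 ≤ Real.log ((b ^ K : ℕ) : ℝ) := Real.log_natCast_nonneg _
    split_ifs
    · rw [abs_of_nonneg ArithmeticFunction.vonMangoldt_nonneg]
      refine ArithmeticFunction.vonMangoldt_le_log.trans ?_
      apply Real.log_le_log (by exact_mod_cast (by omega : 0 < n))
      exact_mod_cast (hn.2.trans hle)
    · rw [abs_zero]
      exact g0)
  rw [fin_one] at h2
  refine le_trans (le_of_eq ?_) h2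
  apply sum_congr rfl
  intro ω _
  rw [SS_trunc z (y ω) M (b ^ (K - 1)) hM]
  simp only [univ_unique, prod_singleton]

theorem cor : COR := by
  classical
  intro b E H W V₁ U hb hE
  obtain ⟨a, ha⟩ : ∃ a, a = W + V₁ + 9 := ⟨_, rfl⟩
  obtain ⟨U', hU'⟩ : ∃ U', U' = H + a + W + V₁ + U + 3 := ⟨_, rfl⟩
  refine ⟨2 * (U' + 1 + 2) + 6, fun c => ?_⟩
  obtain ⟨B0, hB0⟩ := tl_diffs 1 b E c b hb hE U'
  refine ⟨B0 + 1, fun Ez => ?_⟩
  obtain ⟨k1, h1⟩ := hB0 Ez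
  obtain ⟨n2, h2⟩ := Vz_inv_small Ez
  obtain ⟨k3, h3⟩ := pow_two_ev (W + a + 1)
  obtain ⟨n4, h4⟩ := ev_L' (2 ^ B0 + 1)
  obtain ⟨M0, hM0⟩ : ∃ M0 : ℕ, M0 = 2 ^ (U' + 2) := ⟨_, rfl⟩
  refine ⟨k1 + n2 + k3 + n4 + 2 * b + M0 + 8, fun k hk e he hbe z hz1 hz2 ι Ω p Y hp hlaw hY bad _ hbad => ?_⟩
  have hb1 : 1 < b := by omega
  have hbr : (2 : ℝ) ≤ b := by exact_mod_cast hb
  have hk8 : 8 ≤ k := by omega
  have hkr : (8 : ℝ) ≤ k := by exact_mod_cast hk8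
  have hk0 : (0 : ℝ) < k := by linarith
  have hk1r : (1 : ℝ) ≤ k := by linarith
  obtain ⟨K, hK⟩ : ∃ K, K = k + e := ⟨_, rfl⟩
  obtain ⟨N, hN⟩ : ∃ N, N = b ^ (K - 1) := ⟨_, rfl⟩
  have hkW : k ^ (W + a + 1) ≤ 2 ^ k := h3 k (by omega)
  have hek : e ≤ k := by
    have g1 : 2 ^ e ≤ 2 ^ k := by
      calc 2 ^ e ≤ b ^ e := Nat.pow_le_pow_left hb _
        _ ≤ k ^ W := hbe
        _ ≤ k ^ (W + a + 1) := Nat.pow_le_pow_right (by omega) (by omega)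
        _ ≤ 2 ^ k := hkW
    exact (Nat.pow_le_pow_iff_right (by norm_num)).1 g1
  have hKe : k + e - 1 = K - 1 := by rw [hK]
  rw [hKe] at hY hbad
  rw [← hK] at hlaw
  have hkbk : k < b ^ k := Nat.lt_pow_self hb1
  have hbkN : b ^ k ≤ N := by rw [hN]; exact Nat.pow_le_pow_right (by omega) (by omega)
  have hNX : N ≤ b ^ K := by rw [hN]; exact Nat.pow_le_pow_right (by omega) (by omega)
  have hN0 : 0 < N := by omega
  have hNr : (0 : ℝ) < N := by exact_mod_cast hN0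
  -- logarithms
  obtain ⟨L0, hL0⟩ : ∃ L0, L0 = Real.log ((b ^ k : ℕ) : ℝ) := ⟨_, rfl⟩
  obtain ⟨L1, hL1⟩ : ∃ L1, L1 = Real.log (N : ℝ) := ⟨_, rfl⟩
  obtain ⟨LX, hLX⟩ : ∃ LX, LX = Real.log ((b ^ K : ℕ) : ℝ) := ⟨_, rfl⟩
  have a0 := h4 (b ^ k) (by omega)
  rw [← hL0] at hz1 hz2 a0
  have hbk0 : (0 : ℝ) < ((b ^ k : ℕ) : ℝ) := by exact_mod_cast (by omega : 0 < b ^ k)
  have hL01 : L0 ≤ L1 := by
    rw [hL0, hL1]
    exact Real.log_le_log hbk0 (by exact_mod_cast hbkN)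
  have hL1X : L1 ≤ LX := by
    rw [hL1, hLX]
    exact Real.log_le_log hNr (by exact_mod_cast hNX)
  have hLX2 : LX ≤ 2 * L0 := by
    rw [hLX, hL0]
    push_cast
    rw [Real.log_pow, Real.log_pow]
    have g1 : (K : ℝ) ≤ 2 * k := by exact_mod_cast (by omega : K ≤ 2 * k)
    have g2 : 0 ≤ Real.log b := Real.log_natCast_nonneg _
    nlinarith
  have hp2 : (0 : ℝ) < 2 ^ B0 := by positivity
  have hL01' : 1 ≤ L0 := by linarith
  have hL00 : 0 < L0 := by linarith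
  have hz : 1 ≤ z := by
    have : (1 : ℝ) ≤ z := (one_le_pow₀ hL01').trans hz1
    exact_mod_cast this
  have hz3 : L1 ^ B0 ≤ z := by
    refine le_trans ?_ hz1
    calc L1 ^ B0 ≤ (2 * L0) ^ B0 := pow_le_pow_left₀ (by linarith) (by linarith) _
      _ = 2 ^ B0 * L0 ^ B0 := mul_pow _ _ _
      _ ≤ L0 * L0 ^ B0 := mul_le_mul_of_nonneg_right (by linarith) (by positivity)
      _ = L0 ^ (B0 + 1) := by ring
  have hz4 : (z : ℝ) ≤ L1 ^ Ez := hz2.trans (pow_le_pow_left₀ hL00.le hL01 _)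
  have hV : (Vz z)⁻¹ ≤ LX := by
    rw [hLX]
    apply h2 (b ^ K) (by
      have : b ^ k ≤ b ^ K := hbkN.trans hNX
      omega) z hz
    rw [← hLX]
    exact hz2.trans (pow_le_pow_left₀ hL00.le (hL01.trans hL1X) _)
  have hL1k : (k : ℝ) / 2 ≤ L1 := by
    have := (logX b k hb).1
    rw [← hL0] at this
    linarith
  have hLXk : LX ≤ (k : ℝ) ^ 2 := by
    have g1 := (logX b K hb).2
    rw [← hLX] at g1
    have g2 : (b : ℝ) * K ≤ (k : ℝ) ^ 2 := by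
      have g3 : b * K ≤ k ^ 2 := by
        have : b * K ≤ b * (2 * k) := Nat.mul_le_mul_left _ (by omega)
        nlinarith
      exact_mod_cast g3
    linarith
  -- the grid
  obtain ⟨T, hT⟩ : ∃ T, T = k ^ a := ⟨_, rfl⟩
  obtain ⟨s, hs⟩ : ∃ s, s = N / T + 1 := ⟨_, rfl⟩
  have hs1 : 1 ≤ s := by rw [hs]; exact Nat.le_add_left 1 _
  have hT0 : 0 < T := by rw [hT]; exact Nat.pow_pos (by omega)
  have hTr : (T : ℝ) = (k : ℝ) ^ a := by rw [hT]; push_cast; rfl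
  have hTN : T ≤ N := by
    have : T ≤ b ^ k := by
      calc T = k ^ a := hT
        _ ≤ k ^ (W + a + 1) := Nat.pow_le_pow_right (by omega) (by omega)
        _ ≤ 2 ^ k := hkW
        _ ≤ b ^ k := Nat.pow_le_pow_left hb _
    omega
  have hNsT : ∀ n ≤ N, n / s ≤ T := by
    intro n hn
    have g1 : N < T * s := by
      rw [hs]
      have := Nat.lt_div_mul_add (a := N) (b := T) hT0
      nlinarith
    have g2 : n / s < T := by
      apply Nat.div_lt_of_lt_mul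
      rw [mul_comm]
      omega
    omega
  have hNb : (N : ℝ) ≤ (b : ℝ) ^ k * (k : ℝ) ^ W := by
    have g1 : N ≤ b ^ k * k ^ W := by
      rw [hN]
      have g2 : K - 1 = k + (e - 1) := by omega
      rw [g2, pow_add]
      apply Nat.mul_le_mul_left
      exact (Nat.pow_le_pow_right (by omega) (by omega)).trans hbe
    exact_mod_cast g1
  have hbkr : (0 : ℝ) < (b : ℝ) ^ k := by positivity
  -- the rest
  have hrest : (s : ℝ) * (2 * LX ^ 2) ≤ (b : ℝ) ^ k / (2 * (k : ℝ) ^ V₁) := by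
    have g1 : (s : ℝ) ≤ 2 * (N / T) := by
      rw [hs]
      push_cast
      have g2 : ((N / T : ℕ) : ℝ) ≤ N / T := Nat.cast_div_le
      have g3 : (1 : ℝ) ≤ N / T := by
        rw [one_le_div (by exact_mod_cast hT0)]
        exact_mod_cast hTN
      linarith
    have hLX0 : 0 ≤ LX := by linarith
    have g2 : LX ^ 2 ≤ (k : ℝ) ^ 4 := by
      calc LX ^ 2 ≤ ((k : ℝ) ^ 2) ^ 2 := pow_le_pow_left₀ hLX0 hLXk 2
        _ = (k : ℝ) ^ 4 := by ring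
    have g3 : (N : ℝ) / T ≤ (b : ℝ) ^ k / (k : ℝ) ^ (V₁ + 9) := by
      rw [hTr, div_le_div_iff₀ (by positivity) (by positivity)]
      calc (N : ℝ) * (k : ℝ) ^ (V₁ + 9) ≤ ((b : ℝ) ^ k * (k : ℝ) ^ W) * (k : ℝ) ^ (V₁ + 9) :=
            mul_le_mul_of_nonneg_right hNb (by positivity)
        _ = (b : ℝ) ^ k * (k : ℝ) ^ a := by rw [ha]; ring
    calc (s : ℝ) * (2 * LX ^ 2) ≤ (2 * ((b : ℝ) ^ k / (k : ℝ) ^ (V₁ + 9))) * (2 * (k : ℝ) ^ 4) := by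
          apply mul_le_mul (by linarith) (by linarith) (by positivity) (by positivity)
      _ = (b : ℝ) ^ k / (2 * (k : ℝ) ^ V₁) * (8 / (k : ℝ) ^ 5) := by
          have e1 : (k : ℝ) ^ (V₁ + 9) = (k : ℝ) ^ V₁ * (k : ℝ) ^ 4 * (k : ℝ) ^ 5 := by ring
          rw [e1]
          field_simp
          ring
      _ ≤ (b : ℝ) ^ k / (2 * (k : ℝ) ^ V₁) * 1 := by
          apply mul_le_mul_of_nonneg_left _ (by positivity)
          rw [div_le_one (by positivity)]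
          calc (8 : ℝ) ≤ k := hkr
            _ = (k : ℝ) ^ 1 := (pow_one _).symm
            _ ≤ (k : ℝ) ^ 5 := pow_le_pow_right₀ hk1r (by norm_num)
      _ = _ := mul_one _
  -- the expectations
  have hexp : ∀ h ∈ Icc 1 (k ^ H), ∀ i ∈ range (T + 1), ∑ ω ∈ Ω, p ω * |SS z ((h : ℤ) * Y ω) (min (i * s) N)| ≤ N / L1 ^ U' := by
    intro h hh i _
    rw [mem_Icc] at hh
    have g1 := cor_one b E c U' B0 Ez hb k1 h1 K (by omega) (by omega) ι Ω p (fun ω => (h : ℤ) * Y ω) hp (hlaw h hh.1 hh.2)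
      (fun ω hω => hY ω hω h hh.1 hh.2) z (by rw [← hN, ← hL1]; exact hz3) (by rw [← hN, ← hL1]; exact hz4) (min (i * s) N)
      (by rw [← hN]; exact min_le_right _ _)
    rw [← hN, ← hL1] at g1
    exact g1
  have hpn : ∀ ω ∈ Ω, 0 ≤ p ω := (hlaw 1 le_rfl (Nat.one_le_pow _ _ (by omega))).nonneg
  obtain ⟨δ, hδ⟩ : ∃ δ : ℝ, δ = (b : ℝ) ^ k / (2 * (k : ℝ) ^ V₁) := ⟨_, rfl⟩
  rw [← hδ] at hrest
  have hδ0 : 0 < δ := by rw [hδ]; positivity
  have hpt : ∀ ω ∈ Ω, δ * (if bad ω then p ω else 0) ≤ ∑ h ∈ Icc 1 (k ^ H), ∑ i ∈ range (T + 1), p ω * |SS z ((h : ℤ) * Y ω) (min (i * s) N)| := by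
    intro ω hω
    have hpω := hpn ω hω
    have hnn : ∀ h ∈ Icc 1 (k ^ H), ∀ i ∈ range (T + 1), 0 ≤ p ω * |SS z ((h : ℤ) * Y ω) (min (i * s) N)| :=
      fun h _ i _ => mul_nonneg hpω (abs_nonneg _)
    by_cases hb' : bad ω
    swap
    · rw [if_neg hb', mul_zero]
      exact sum_nonneg fun h hh => sum_nonneg fun i hi => hnn h hh i hi
    rw [if_pos hb']
    obtain ⟨h, N₁, q1, q2, q3, q4⟩ := hbad ω hω hb'
    rw [← hN] at q3
    have q5 : (b : ℝ) ^ k / (k : ℝ) ^ V₁ = 2 * δ := by rw [hδ]; field_simp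
    rw [q5] at q4
    have q6 : |SS z ((h : ℤ) * Y ω) N₁| ≤ |SS z ((h : ℤ) * Y ω) (N₁ / s * s)| + s * (2 * LX ^ 2) := by
      apply SS_step z _ (N₁ / s) s N₁ (b ^ K) LX rfl hs1 (by omega) _ (by omega) hLX.symm hV
      have r1 := (abs_le.1 (hY ω hω h q1 q2)).2
      have r2 : ((N : ℕ) : ℤ) = (b : ℤ) ^ (K - 1) := by rw [hN]; push_cast; rfl
      have r3 : (N₁ : ℤ) ≤ N := by exact_mod_cast q3
      have r4 : N + N ≤ b ^ K := by
        have : b ^ K = b * N := by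
          rw [hN, ← pow_succ']
          congr 1
          omega
        rw [this]
        nlinarith
      have r5 : (N : ℤ) + N ≤ ((b ^ K : ℕ) : ℤ) := by exact_mod_cast r4
      rw [← r2] at r1
      linarith
    have q7 : 2 * δ < |SS z ((h : ℤ) * Y ω) N₁| := q4
    have q8 : δ ≤ |SS z ((h : ℤ) * Y ω) (N₁ / s * s)| := by linarith
    have q9 : N₁ / s * s ≤ N := (Nat.div_mul_le_self _ _).trans q3
    have q10 : min (N₁ / s * s) N = N₁ / s * s := min_eq_left q9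
    have q11 : N₁ / s ∈ range (T + 1) := by
      rw [mem_range]
      have := hNsT N₁ q3
      omega
    have q12 : h ∈ Icc 1 (k ^ H) := mem_Icc.2 ⟨q1, q2⟩
    calc δ * p ω = p ω * δ := mul_comm _ _
      _ ≤ p ω * |SS z ((h : ℤ) * Y ω) (min (N₁ / s * s) N)| := by
          rw [q10]
          exact mul_le_mul_of_nonneg_left q8 hpω
      _ ≤ ∑ i ∈ range (T + 1), p ω * |SS z ((h : ℤ) * Y ω) (min (i * s) N)| :=
          single_le_sum (f := fun i => p ω * |SS z ((h : ℤ) * Y ω) (min (i * s) N)|) (fun i hi => hnn h q12 i hi) q11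
      _ ≤ _ := single_le_sum (f := fun h : ℕ => ∑ i ∈ range (T + 1), p ω * |SS z ((h : ℤ) * Y ω) (min (i * s) N)|)
          (fun h hh => sum_nonneg fun i hi => hnn h hh i hi) q12
  have htot : δ * ∑ ω ∈ Ω, (if bad ω then p ω else 0) ≤ (k ^ H : ℕ) * (((T + 1 : ℕ) : ℝ) * (N / L1 ^ U')) := by
    rw [mul_sum]
    refine (sum_le_sum hpt).trans ?_
    rw [sum_comm]
    have g1 : ∀ h ∈ Icc 1 (k ^ H), ∑ ω ∈ Ω, ∑ i ∈ range (T + 1), p ω * |SS z ((h : ℤ) * Y ω) (min (i * s) N)| ≤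
        ((T + 1 : ℕ) : ℝ) * (N / L1 ^ U') := by
      intro h hh
      rw [sum_comm]
      refine (sum_le_sum (hexp h hh)).trans (le_of_eq ?_)
      rw [sum_const, card_range, nsmul_eq_mul]
    refine (sum_le_sum g1).trans (le_of_eq ?_)
    rw [sum_const, Nat.card_Icc, nsmul_eq_mul, Nat.add_sub_cancel]
  have hLU : (N : ℝ) / L1 ^ U' ≤ (b : ℝ) ^ k * (k : ℝ) ^ W * (2 ^ U' / (k : ℝ) ^ U') := by
    have g1 : ((k : ℝ) / 2) ^ U' ≤ L1 ^ U' := pow_le_pow_left₀ (by positivity) hL1k _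
    calc (N : ℝ) / L1 ^ U' ≤ ((b : ℝ) ^ k * (k : ℝ) ^ W) / ((k : ℝ) / 2) ^ U' :=
          div_le_div₀ (by positivity) hNb (by positivity) g1
      _ = _ := by rw [div_pow]; field_simp
  have hT1 : ((T + 1 : ℕ) : ℝ) ≤ 2 * (k : ℝ) ^ a := by
    push_cast
    have : (1 : ℝ) ≤ T := by exact_mod_cast hT0
    rw [← hTr]
    linarith
  have hfin : δ * ∑ ω ∈ Ω, (if bad ω then p ω else 0) ≤ δ * (1 / (k : ℝ) ^ U) := by
    refine htot.trans ?_
    have g1 : ((k ^ H : ℕ) : ℝ) * (((T + 1 : ℕ) : ℝ) * (N / L1 ^ U')) ≤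
        (k : ℝ) ^ H * ((2 * (k : ℝ) ^ a) * ((b : ℝ) ^ k * (k : ℝ) ^ W * (2 ^ U' / (k : ℝ) ^ U'))) := by
      push_cast
      apply mul_le_mul_of_nonneg_left _ (by positivity)
      apply mul_le_mul _ hLU (div_nonneg hNr.le (pow_nonneg (by linarith) _)) (by positivity)
      exact_mod_cast hT1
    refine g1.trans ?_
    have g2 : (k : ℝ) ^ U' = (k : ℝ) ^ H * (k : ℝ) ^ a * (k : ℝ) ^ W * (k : ℝ) ^ V₁ * (k : ℝ) ^ U * (k : ℝ) ^ 3 := by
      rw [hU']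
      ring
    have g3 : (2 : ℝ) ^ (U' + 2) ≤ (k : ℝ) ^ 3 := by
      have e0 : 2 ^ (U' + 2) ≤ k := by rw [← hM0]; omega
      have e1 : (2 : ℝ) ^ (U' + 2) ≤ k := by exact_mod_cast e0
      calc (2 : ℝ) ^ (U' + 2) ≤ (k : ℝ) ^ 1 := by rw [pow_one]; exact e1
        _ ≤ (k : ℝ) ^ 3 := pow_le_pow_right₀ hk1r (by norm_num)
    have g4 : (k : ℝ) ^ H * ((2 * (k : ℝ) ^ a) * ((b : ℝ) ^ k * (k : ℝ) ^ W * (2 ^ U' / (k : ℝ) ^ U'))) =
        δ * (1 / (k : ℝ) ^ U) * (2 ^ (U' + 2) / (k : ℝ) ^ 3) := by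
      rw [g2, hδ, pow_add (2 : ℝ) U' 2]
      field_simp
    rw [g4]
    apply mul_le_of_le_one_right (by positivity)
    rw [div_le_one (by positivity)]
    exact g3
  exact le_of_mul_le_mul_left hfin hδ0

end Pool.Agent.Y958.RM
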