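import Pool.Agent.Y958.RM.Stm

set_option autoImplicit false

/-! Hooley's variance conjecture for random moduli: all the multiples of a sum of independent random integers have a thin
large spectrum (after `sum_law` of `Pool.Agent.Y885.RS2`). -/

namespace Pool.Agent.Y958.RM
open Finset
open Pool.Agent.H807R2.Dav
open Pool.Agent.H373R2.T7
open Pool.Agent.Y885

open Classical in
/-- the large spectrum of a multiple of a sum of independent random integers -/
lemma sum_law_h (b B E c V k K h l : ℕ) (hb : 2 ≤ b) (hB : 1 ≤ B) (hK : 2 ≤ K) (hh1 : b ^ l ≤ h) (hh2 : h ≤ b ^ (l + 1))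
    (κ ε c₀ c₁ η : ℝ) (hκ0 : 0 < κ) (hε : 0 < ε) (hη : 0 < η)
    (hc₁ : (V : ℝ) / (2 * κ ^ 2 * η) ≤ c₁) (J : Finset ℕ) (hJk : ∀ j ∈ J, j < k)
    (s : ℕ → Finset ℤ) (p : ℕ → ℤ → ℝ) (hp : ∀ j < k, ∀ x ∈ s j, 0 ≤ p j x) (hs : ∀ j < k, ∑ x ∈ s j, p j x = 1)
    (hsupp : ∀ j < k, ∀ x ∈ s j, |x| ≤ (B : ℤ) * (b : ℤ) ^ j)
    (hspread : ∀ j ∈ J, ∀ y : ℤ, ∑ x ∈ s j, (if y ≤ x ∧ (B : ℤ) * (x - y) ≤ (b : ℤ) ^ j then p j x else 0) ≤ 1 - η)
    (hDense : Dense E c₀ K (J.image (fun j => j + l))) (C : ℤ)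
    (hthin : ∀ J : Finset ℕ, Dense E c₀ K J → ∀ S : Finset ℕ, (∀ t ∈ S, t < b ^ (K + 1)) →
      (∀ T ⊆ S, ∃ d : ℕ → ℕ, (∀ j ∈ J, b ^ j ≤ (2 * (b * B)) * d j ∧ d j ≤ (2 * (b * B)) * b ^ j) ∧ ∃ T' ⊆ T, T.card ≤ 2 * T'.card ∧
        ∀ t ∈ T', FewFar κ ε c₁ K J d (fun t : ℕ => (t : ℝ) / ((b ^ (K + 1) : ℕ) : ℝ)) t) →
      Thin b E (K ^ c) K (2 * K / 5) S) :
    TLaw b E c V K (Fintype.piFinset (fun j : Fin k => s j)) (fun ω => ∏ j : Fin k, p j (ω j))
      (fun ω => (h : ℤ) * (C + ∑ j : Fin k, ω j)) := by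
  have hKr : (2 : ℝ) ≤ K := by exact_mod_cast hK
  have hK0 : (0 : ℝ) < K := by linarith
  have hlogK : 0 < Real.log K := Real.log_pos (by linarith)
  refine ⟨?_, ?_, ?_⟩
  · intro ω hω
    rw [Fintype.mem_piFinset] at hω
    exact prod_nonneg fun j _ => hp j j.2 _ (hω j)
  · apply le_of_eq
    rw [← Finset.prod_univ_sum (fun j : Fin k => s j) (fun j x => p j x)]
    exact prod_eq_one fun j _ => hs j j.2
  · apply hthin _ hDense
    · intro t ht
      unfold Spec at ht
      rw [mem_filter, mem_range] at ht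
      exact ht.1
    · intro T hT
      obtain ⟨θ, hθ⟩ : ∃ θ : ℕ → ℝ, θ = fun t : ℕ => (t : ℝ) / ((b ^ (K + 1) : ℕ) : ℝ) := ⟨_, rfl⟩
      rw [← hθ]
      have hfar : ∀ t ∈ T, ∑ j ∈ range k, fp (s j) (p j) κ (h * θ t) ≤ V * Real.log K / (4 * κ ^ 2) := by
        intro t ht
        have htS := hT ht
        unfold Spec at htS
        rw [mem_filter, mem_range] at htS
        have hθt : (t : ℝ) / ((b ^ (K + 1) : ℕ) : ℝ) = θ t := by rw [hθ]
        rw [hθt] at htS
        have htS2 := htS.2
        have e0 : ∀ ω : Fin k → ℤ, (((h : ℤ) * (C + ∑ j : Fin k, ω j) : ℤ) : ℝ) * θ t = ((C + ∑ j : Fin k, ω j : ℤ) : ℝ) * (h * θ t) := by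
          intro ω
          push_cast
          ring
        simp only [e0] at htS2
        have h1 := htS2.trans_le (char_all k s p hp hs C (h * θ t) κ hκ0.le)
        have h3 : (1 : ℝ) / (K : ℝ) ^ V = Real.exp (-(V * Real.log K)) := by
          rw [Real.exp_neg, Real.exp_nat_mul, Real.exp_log hK0, one_div]
        rw [h3, Real.exp_lt_exp, neg_lt_neg_iff] at h1
        rw [le_div_iff₀ (by positivity)]
        linarith
      have hpick : ∀ j, ∃ d : ℕ, j ∈ J → (b ^ j ≤ (2 * B) * d ∧ d ≤ (2 * B) * b ^ j ∧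
          η * ((T.filter (fun t => κ < |(d : ℝ) * (h * θ t) - round ((d : ℝ) * (h * θ t))|)).card : ℝ) ≤ ∑ t ∈ T, fp (s j) (p j) κ (h * θ t)) := by
        intro j
        by_cases hj : j ∈ J
        · obtain ⟨d, hd⟩ := pick B b j hb hB (s j) (p j) η κ hη (hp j (hJk j hj)) (hs j (hJk j hj)) (hsupp j (hJk j hj)) (hspread j hj) T
            (fun t => h * θ t)
          exact ⟨d, fun _ => hd⟩
        · exact ⟨0, fun h => absurd h hj⟩
      choose d hd using hpick
      obtain ⟨d', hd'⟩ : ∃ d' : ℕ → ℕ, d' = fun j => h * d (j - l) := ⟨_, rfl⟩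
      have hd'j : ∀ j, d' (j + l) = h * d j := by
        intro j
        rw [hd']
        simp only [Nat.add_sub_cancel]
      refine ⟨d', fun j' hj' => ?_, ?_⟩
      · obtain ⟨j, hj, rfl⟩ := mem_image.1 hj'
        obtain ⟨q1, q2, _⟩ := hd j hj
        rw [hd'j]
        constructor
        · calc b ^ (j + l) = b ^ j * b ^ l := pow_add _ _ _
            _ ≤ (2 * B * d j) * h := Nat.mul_le_mul q1 hh1
            _ ≤ b * ((2 * B * d j) * h) := Nat.le_mul_of_pos_left _ (by omega)
            _ = 2 * (b * B) * (h * d j) := by ring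
        · calc h * d j ≤ b ^ (l + 1) * (2 * B * b ^ j) := Nat.mul_le_mul hh2 q2
            _ = 2 * (b * B) * b ^ (j + l) := by rw [pow_add, pow_add]; ring
      -- most frequencies have few far differences
      obtain ⟨R, hR⟩ : ∃ R : ℝ, R = V * Real.log K / (4 * κ ^ 2 * η) := ⟨_, rfl⟩
      have hR0 : 0 ≤ R := by rw [hR]; positivity
      obtain ⟨J', hJ'⟩ : ∃ J', J' = J.image (fun j => j + l) := ⟨_, rfl⟩
      rw [← hJ']
      obtain ⟨nf, hnf⟩ : ∃ nf : ℕ → ℕ, nf = fun t => (J'.filter (fun j => Far κ d' θ j t)).card := ⟨_, rfl⟩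
      have htot : ∑ t ∈ T, (nf t : ℝ) ≤ T.card * R := by
        have h1 : ∑ t ∈ T, (nf t : ℝ) = ∑ j ∈ J, ((T.filter (fun t => Far κ d' θ (j + l) t)).card : ℝ) := by
          have h0 : ∑ t ∈ T, (nf t : ℝ) = ∑ j ∈ J', ((T.filter (fun t => Far κ d' θ j t)).card : ℝ) := by
            rw [hnf]
            simp only [card_filter]
            push_cast
            exact sum_comm
          rw [h0, hJ', sum_image]
          intro j _ j' _ hjj
          simpa using hjj
        have h2 : η * ∑ j ∈ J, ((T.filter (fun t => Far κ d' θ (j + l) t)).card : ℝ) ≤ ∑ t ∈ T, ∑ j ∈ range k, fp (s j) (p j) κ (h * θ t) := by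
          rw [mul_sum, sum_comm]
          have g1 : ∀ j ∈ J, η * ((T.filter (fun t => Far κ d' θ (j + l) t)).card : ℝ) ≤ ∑ t ∈ T, fp (s j) (p j) κ (h * θ t) := by
            intro j hj
            refine le_trans (le_of_eq ?_) (hd j hj).2.2
            congr 3
            apply filter_congr
            intro t _
            unfold Far
            rw [hd'j]
            have e1 : ((h * d j : ℕ) : ℝ) * θ t = (d j : ℝ) * (h * θ t) := by
              push_cast
              ring
            rw [e1]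
          refine (sum_le_sum g1).trans ?_
          apply sum_le_sum_of_subset_of_nonneg
          · intro j hj
            exact mem_range.2 (hJk j hj)
          · intro j hj _
            rw [mem_range] at hj
            apply sum_nonneg
            intro t _
            unfold fp
            apply sum_nonneg
            intro x hx
            apply sum_nonneg
            intro y hy
            split_ifs
            · exact mul_nonneg (hp j hj x hx) (hp j hj y hy)
            · exact le_rfl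
        have h3 : ∑ t ∈ T, ∑ j ∈ range k, fp (s j) (p j) κ (h * θ t) ≤ T.card * (V * Real.log K / (4 * κ ^ 2)) := by
          refine (sum_le_sum hfar).trans (le_of_eq ?_)
          rw [sum_const, nsmul_eq_mul]
        have h4 : η * ∑ t ∈ T, (nf t : ℝ) ≤ η * (T.card * R) := by
          rw [h1]
          refine h2.trans (h3.trans (le_of_eq ?_))
          rw [hR]
          field_simp
        exact le_of_mul_le_mul_left h4 hη
      refine ⟨T.filter (fun t => (nf t : ℝ) ≤ 2 * R), filter_subset _ _, ?_, ?_⟩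
      · -- at least half
        rcases T.eq_empty_or_nonempty with h0 | h0
        · rw [h0]; simp
        by_contra hcon
        push Not at hcon
        have h1 : T.card < 2 * (T.filter (fun t => ¬ (nf t : ℝ) ≤ 2 * R)).card := by
          have := card_filter_add_card_filter_not (s := T) (fun t => (nf t : ℝ) ≤ 2 * R)
          omega
        have h2 : ((T.filter (fun t => ¬ (nf t : ℝ) ≤ 2 * R)).card : ℝ) * (2 * R) ≤ T.card * R := by
          refine le_trans ?_ htot
          rw [← nsmul_eq_mul, ← sum_const]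
          refine le_trans (sum_le_sum (g := fun t => (nf t : ℝ)) ?_) ?_
          · intro t ht
            have := (mem_filter.1 ht).2
            push Not at this
            exact this.le
          · exact sum_le_sum_of_subset_of_nonneg (filter_subset _ _) fun _ _ _ => Nat.cast_nonneg _
        rcases hR0.lt_or_eq with h3 | h3
        · have h4 : (T.card : ℝ) < 2 * ((T.filter (fun t => ¬ (nf t : ℝ) ≤ 2 * R)).card : ℝ) := by exact_mod_cast h1
          nlinarith
        · have h5 : ∀ t ∈ T, (nf t : ℝ) ≤ 2 * R := by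
            intro t ht
            have h6 : ∑ t ∈ T, (nf t : ℝ) ≤ 0 := by rw [← h3, mul_zero] at htot; exact htot
            have h7 : (nf t : ℝ) ≤ ∑ t ∈ T, (nf t : ℝ) := single_le_sum (f := fun t => (nf t : ℝ)) (fun _ _ => Nat.cast_nonneg _) ht
            rw [← h3]
            linarith
          have h6 : T.filter (fun t => ¬ (nf t : ℝ) ≤ 2 * R) = ∅ := by
            rw [filter_eq_empty_iff]
            intro t ht
            exact not_not.2 (h5 t ht)
          rw [h6, card_empty] at h1
          omega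
      · intro t ht
        have ht2 := (mem_filter.1 ht).2
        have h1 : ∀ (w : ℕ) (P : ℕ → Prop) [DecidablePred P], ((J'.filter (fun i => P i ∧ Far κ d' θ i t)).card : ℝ) ≤ ε * w + c₁ * Real.log K := by
          intro w P _
          have h2 : ((J'.filter (fun i => P i ∧ Far κ d' θ i t)).card : ℝ) ≤ nf t := by
            rw [hnf]
            have : (J'.filter (fun i => P i ∧ Far κ d' θ i t)).card ≤ (J'.filter (fun i => Far κ d' θ i t)).card := by
              apply card_le_card
              intro i hi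
              rw [mem_filter] at hi ⊢
              exact ⟨hi.1, hi.2.2⟩
            exact_mod_cast this
          have h3 : 2 * R ≤ c₁ * Real.log K := by
            refine le_trans (le_of_eq ?_) (mul_le_mul_of_nonneg_right hc₁ hlogK.le)
            rw [hR]
            field_simp
            ring
          have h4 : 0 ≤ ε * w := by positivity
          linarith
        constructor
        · intro w _
          have h2 := h1 w (fun i => 0 ≤ i ∧ i < w)
          refine le_trans (le_of_eq ?_) h2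
          congr 2
          ext j
          rw [mem_filter, mem_filter, and_assoc]
        · intro w _
          have h2 := h1 w (fun i => K + 1 - w ≤ i ∧ i < K + 1)
          refine le_trans (le_of_eq ?_) h2
          congr 2
          ext j
          rw [mem_filter, mem_filter, and_assoc]

/-- the shifted set of scales -/
lemma rich_shift (δ : ℝ) (D k l W : ℕ) (hδ : 0 < δ) (hl : (l : ℝ) ≤ W * Real.log k) (hk : 3 ≤ k)
    (hbig : 4 * (W * Real.log k) ≤ δ / 2 * k) (J : Finset ℕ) (hR : Rich δ D k J) (hδ1 : δ ≤ 1) :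
    Rich (δ / 2) (D + 2 * (W + 1)) (k + l) (J.image (fun j => j + l)) := by
  classical
  obtain ⟨hJk, hbot, htop, hall⟩ := hR
  have hinj : Function.Injective (fun j : ℕ => j + l) := fun x y h => by simpa using h
  have hk3 : (3 : ℝ) ≤ k := by exact_mod_cast hk
  have hk0 : (0 : ℝ) < k := by linarith
  have hl0 : (0 : ℝ) ≤ l := Nat.cast_nonneg _
  have hlogk : 1 ≤ Real.log k := by
    rw [Real.le_log_iff_exp_le hk0]
    have := Real.exp_one_lt_d9
    linarith
  have hlogkK : Real.log k ≤ Real.log ((k + l : ℕ) : ℝ) := Real.log_le_log hk0 (by exact_mod_cast (by omega : k ≤ k + l))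
  have hD0 : (0 : ℝ) ≤ D := Nat.cast_nonneg _
  have hW0 : (0 : ℝ) ≤ W := Nat.cast_nonneg _
  have hslack : (D : ℝ) * Real.log k + 2 * l ≤ ((D + 2 * (W + 1) : ℕ) : ℝ) * Real.log ((k + l : ℕ) : ℝ) := by
    have g1 : ((D + 2 * (W + 1) : ℕ) : ℝ) * Real.log k ≤ ((D + 2 * (W + 1) : ℕ) : ℝ) * Real.log ((k + l : ℕ) : ℝ) :=
      mul_le_mul_of_nonneg_left hlogkK (Nat.cast_nonneg _)
    have g2 : ((D + 2 * (W + 1) : ℕ) : ℝ) * Real.log k = D * Real.log k + 2 * (W * Real.log k) + 2 * Real.log k := by
      push_cast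
      ring
    linarith
  refine ⟨?_, ?_, ?_, ?_⟩
  · intro j hj
    obtain ⟨i, hi, rfl⟩ := mem_image.1 hj
    have := hJk i hi
    omega
  · intro m hm
    have hcard : ((J.image (fun j => j + l)).filter (fun j => j < m)).card = (J.filter (fun j => j < m - l)).card := by
      rw [filter_image, card_image_of_injective _ hinj]
      congr 1
      ext j
      rw [mem_filter, mem_filter]
      constructor
      · rintro ⟨h1, h2⟩; exact ⟨h1, by omega⟩
      · rintro ⟨h1, h2⟩; exact ⟨h1, by omega⟩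
    rw [hcard]
    have g1 := hbot (m - l) (by omega)
    have g2 : (m : ℝ) ≤ ((m - l : ℕ) : ℝ) + l := by exact_mod_cast (by omega : m ≤ (m - l) + l)
    have g3 : (0 : ℝ) ≤ ((m - l : ℕ) : ℝ) := Nat.cast_nonneg _
    have g4 : (1 / 2 + δ / 2) * (m : ℝ) ≤ (1 / 2 + δ / 2) * (((m - l : ℕ) : ℝ) + l) := mul_le_mul_of_nonneg_left g2 (by positivity)
    have g5 : (1 / 2 + δ / 2) * (((m - l : ℕ) : ℝ) + l) ≤ (1 / 2 + δ) * ((m - l : ℕ) : ℝ) + 2 * l := by nlinarith
    linarith
  · intro m hm
    by_cases hmk : m ≤ k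
    · have hcard : (J.filter (fun j => k - m ≤ j)).card ≤ ((J.image (fun j => j + l)).filter (fun j => k + l - m ≤ j)).card := by
        rw [filter_image, card_image_of_injective _ hinj]
        apply card_le_card
        intro j hj
        rw [mem_filter] at hj ⊢
        exact ⟨hj.1, by omega⟩
      have hcardr : ((J.filter (fun j => k - m ≤ j)).card : ℝ) ≤ (((J.image (fun j => j + l)).filter (fun j => k + l - m ≤ j)).card : ℝ) := by
        exact_mod_cast hcard
      have g1 := htop m hmk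
      have g2 : δ / 2 * (m : ℝ) ≤ δ * m := by
        have : (0 : ℝ) ≤ m := Nat.cast_nonneg _
        nlinarith
      linarith
    · have hcard : (J.filter (fun j => k - k ≤ j)).card ≤ ((J.image (fun j => j + l)).filter (fun j => k + l - m ≤ j)).card := by
        rw [filter_image, card_image_of_injective _ hinj]
        apply card_le_card
        intro j hj
        rw [mem_filter] at hj ⊢
        exact ⟨hj.1, by omega⟩
      have hcardr : ((J.filter (fun j => k - k ≤ j)).card : ℝ) ≤ (((J.image (fun j => j + l)).filter (fun j => k + l - m ≤ j)).card : ℝ) := by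
        exact_mod_cast hcard
      have g1 := htop k le_rfl
      have g2 : (m : ℝ) ≤ k + l := by exact_mod_cast hm
      have g3 : δ / 2 * (m : ℝ) ≤ δ / 2 * (k + l) := mul_le_mul_of_nonneg_left g2 (by positivity)
      have g4 : δ / 2 * ((k : ℝ) + l) ≤ δ * k + 2 * l := by nlinarith
      linarith
  · rw [card_image_of_injective _ hinj]
    push_cast
    have g1 : (3 / 5 + δ / 2) * ((k : ℝ) + l) ≤ (3 / 5 + δ) * k := by nlinarith
    linarith

theorem lawh : LAWH := by
  classical
  intro b hb B D hB η δ₀ hη hδ₀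
  obtain ⟨δ, hδ⟩ : ∃ δ, δ = min δ₀ 1 := ⟨_, rfl⟩
  have hδ0 : 0 < δ := by rw [hδ]; exact lt_min hδ₀ one_pos
  have hδ1 : δ ≤ 1 := by rw [hδ]; exact min_le_right _ _
  have hδle : δ ≤ δ₀ := by rw [hδ]; exact min_le_left _ _
  obtain ⟨E, hEδ⟩ := exists_nat_ge (3 / (δ / 2) + 1)
  have hEr : (1 : ℝ) ≤ E := by
    have : 0 < 3 / (δ / 2) := by positivity
    linarith
  have hE : 1 ≤ E := by exact_mod_cast hEr
  have hE0 : (0 : ℝ) < E := by linarith
  have hEδ2 : 3 / (E : ℝ) ≤ δ / 2 := by
    rw [div_le_iff₀ hE0]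
    have h1 : 3 / (δ / 2) ≤ E := by linarith
    rw [div_le_iff₀ (by positivity)] at h1
    linarith
  obtain ⟨κ, ε₀, hκ0, hε₀, _, hthin⟩ := thin_of b (2 * (b * B)) E hb (Nat.mul_pos (by norm_num) (Nat.mul_pos (by omega) hB)) hE
  refine ⟨E, hE, fun W V => ?_⟩
  obtain ⟨c₁, K₁, h1⟩ := hthin (((D + 2 * (W + 1) : ℕ) : ℝ) + 4 * (W + 1)) ((V : ℝ) / (2 * κ ^ 2 * η))
  have hlim : ∃ k₂ : ℕ, ∀ k : ℕ, k₂ ≤ k → 4 * (W * Real.log k) ≤ δ / 2 * k := by
    have h := (Real.isLittleO_log_id_atTop).bound (show 0 < δ / (8 * (W + 1)) by positivity)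
    have h2 := (tendsto_natCast_atTop_atTop (R := ℝ)).eventually h
    obtain ⟨x0, hx0⟩ := Filter.eventually_atTop.1 h2
    refine ⟨x0 + 1, fun k hk => ?_⟩
    have h3 := hx0 k (by omega)
    have hk0 : (0 : ℝ) < k := by exact_mod_cast (by omega : 0 < k)
    simp only [id, Real.norm_eq_abs, abs_of_pos hk0] at h3
    have h4 := (le_abs_self _).trans h3
    have h5 : 4 * (W * Real.log k) ≤ 4 * (W + 1) * (δ / (8 * (W + 1)) * k) := by
      have g1 : 0 ≤ Real.log k := Real.log_natCast_nonneg _
      have g2 : 4 * (W * Real.log k) ≤ 4 * (W + 1) * Real.log k := by nlinarith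
      exact g2.trans (mul_le_mul_of_nonneg_left h4 (by positivity))
    refine h5.trans (le_of_eq ?_)
    field_simp
    ring
  obtain ⟨k₂, h2⟩ := hlim
  refine ⟨c₁, K₁ + k₂ + 3, fun k hk e he h hh hle J s p C hR hps hspread => ?_⟩
  obtain ⟨l, hl⟩ : ∃ l, l = Nat.log b h := ⟨_, rfl⟩
  rw [← hl] at hle
  have hR' : Rich δ D k J := by
    obtain ⟨q1, q2, q3, q4⟩ := hR
    refine ⟨q1, fun m hm => ?_, fun m hm => ?_, ?_⟩
    · have g0 : (0 : ℝ) ≤ m := Nat.cast_nonneg _
      have g1 := q2 m hm
      have g2 : (1 / 2 + δ) * (m : ℝ) ≤ (1 / 2 + δ₀) * m := mul_le_mul_of_nonneg_right (by linarith) g0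
      linarith
    · have g0 : (0 : ℝ) ≤ m := Nat.cast_nonneg _
      have g1 := q3 m hm
      have g2 : δ * (m : ℝ) ≤ δ₀ * m := mul_le_mul_of_nonneg_right hδle g0
      linarith
    · have g0 : (0 : ℝ) ≤ k := Nat.cast_nonneg _
      have g2 : (3 / 5 + δ) * (k : ℝ) ≤ (3 / 5 + δ₀) * k := mul_le_mul_of_nonneg_right (by linarith) g0
      linarith
  have hlW : (l : ℝ) ≤ W * Real.log k := le_trans (by exact_mod_cast hle) he
  have hrich := rich_shift δ D k l W hδ0 hlW (by omega) (h2 k (by omega)) J hR' hδ1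
  have hlogkK : Real.log k ≤ Real.log ((k + l : ℕ) : ℝ) :=
    Real.log_le_log (by exact_mod_cast (by omega : 0 < k)) (by exact_mod_cast (by omega : k ≤ k + l))
  have hDense := dense_of' (δ / 2) (D + 2 * (W + 1)) (k + l) (e - l) E W hE hEδ2 (by omega) (by
    have g1 : ((e - l : ℕ) : ℝ) ≤ e := by exact_mod_cast Nat.sub_le _ _
    have g2 : (W : ℝ) * Real.log k ≤ W * Real.log ((k + l : ℕ) : ℝ) := mul_le_mul_of_nonneg_left hlogkK (Nat.cast_nonneg _)
    linarith) _ hrich
  have hke : k + l + (e - l) = k + e := by omega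
  rw [hke] at hDense
  exact sum_law_h b B E c₁ V k (k + e) h l hb hB (by omega) (by rw [hl]; exact Nat.pow_log_le_self b (by omega))
    (by rw [hl]; exact (Nat.lt_pow_succ_log_self (by omega) h).le) κ ε₀ _ _ η hκ0 hε₀ hη le_rfl J hR.1 s p
    (fun j hj x hx => ((hps j hj).1 x hx).1) (fun j hj => (hps j hj).2) (fun j hj x hx => ((hps j hj).1 x hx).2) hspread
    hDense C (fun J hJ S hS hT => h1 (k + e) (by omega) J hJ S hS (by exact_mod_cast hT))

end Pool.Agent.Y958.RM
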