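import Pool.Agent.Y958.RM.Stm
import Pool.Agent.TH894.PV6

set_option autoImplicit false

/-! Hooley's variance conjecture for random moduli: from the correlations to the variance. -/

namespace Pool.Agent.Y958.RM
open Finset
open Pool.Agent.H373R2.T7
open Pool.Agent.W93.DG
open Pool.Agent.Y885
open Pool.Agent.TH894.PV (G det_var)
open Pool.Agent.TH894.PA (cz)

/-- the number of additional positions -/
def eH (b H k : ℕ) : ℕ := Nat.log b (k ^ H) + 2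

theorem main (hCOR : COR) (κ U b E : ℕ) (hb : 2 ≤ b) (hE : 1 ≤ E) : ∃ V : ℕ, ∀ (ε : ℝ), 0 < ε → ε ≤ 1 → ∀ c : ℕ, ∃ k₀ : ℕ, ∀ k : ℕ, k₀ ≤ k →
    ∀ (ι : Type) (Ω : Finset ι) (p : ι → ℝ) (Y : ι → ℤ), ∑ ω ∈ Ω, p ω = 1 →
    (∀ h : ℕ, 1 ≤ h → Nat.log b h ≤ eH b (2 * (κ + 1)) k → TLaw b E c V (k + eH b (2 * (κ + 1)) k) Ω p (fun ω => (h : ℤ) * Y ω)) →
    (∀ ω ∈ Ω, |Y ω| ≤ (b : ℤ) ^ k) →
    ∀ bad : ι → Prop, ∀ _hdec : DecidablePred bad,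
    (∀ ω ∈ Ω, bad ω → (b : ℤ) ^ k ≤ Y ω * (k : ℤ) ^ κ ∧ ∃ x : ℝ, (Y ω : ℝ) ≤ x ∧ x ≤ Y ω * (k : ℝ) ^ κ ∧
      ¬ |G x (Y ω).toNat - x * Real.log (Y ω)| ≤ ε * (x * Real.log (Y ω))) →
    ∑ ω ∈ Ω, (if bad ω then p ω else 0) ≤ 1 / (k : ℝ) ^ U := by
  obtain ⟨κ', hκ'⟩ : ∃ κ', κ' = κ + 1 := ⟨_, rfl⟩
  obtain ⟨V, hV⟩ := hCOR b E (2 * κ') (2 * κ' + 2) (4 * κ') U hb hE
  refine ⟨V, fun ε hε hε1 c => ?_⟩
  rw [← hκ']
  obtain ⟨B, hB⟩ := hV c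
  obtain ⟨E', hE'⟩ : ∃ E', E' = B + κ' + 2 := ⟨_, rfl⟩
  obtain ⟨k0, h0⟩ := hB (E' + 1)
  obtain ⟨n1, h1⟩ := det_var κ' ε hε hε1 (E' + 1)
  obtain ⟨n2, h2⟩ := ev_L' (2 ^ κ + 2)
  refine ⟨k0 + n1 + n2 + b + 4, fun k hK ι Ω p Y hp1 hlaw hY bad _ hbad => ?_⟩
  have hb1 : 1 < b := by omega
  have hbr : (2 : ℝ) ≤ b := by exact_mod_cast hb
  have hKX : k < b ^ k := Nat.lt_pow_self hb1
  have hK0 : (0 : ℝ) < k := by exact_mod_cast (by omega : 0 < k)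
  have hK1 : (1 : ℝ) ≤ k := by exact_mod_cast (by omega : 1 ≤ k)
  have hKb : (b : ℝ) ≤ k := by exact_mod_cast (by omega : b ≤ k)
  obtain ⟨L, hL⟩ : ∃ L, L = Real.log ((b ^ k : ℕ) : ℝ) := ⟨_, rfl⟩
  obtain ⟨q1, q2⟩ := logX b k hb
  rw [← hL] at q1 q2
  have hLK2 : L ≤ (k : ℝ) ^ 2 := by
    rw [pow_two]
    exact q2.trans (mul_le_mul_of_nonneg_right hKb hK0.le)
  have hLb := h2 (b ^ k) (by omega)
  rw [← hL] at hLb
  have q3 : (0 : ℝ) < 2 ^ κ := by positivity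
  have hL1 : 1 ≤ L := by linarith
  have hL0 : 0 < L := by linarith
  have hKL : (k : ℝ) ^ κ ≤ L ^ κ' := by
    calc (k : ℝ) ^ κ ≤ (2 * L) ^ κ := pow_le_pow_left₀ hK0.le (by linarith) _
      _ = 2 ^ κ * L ^ κ := mul_pow _ _ _
      _ ≤ L * L ^ κ := mul_le_mul_of_nonneg_right (by linarith) (by positivity)
      _ = L ^ κ' := by rw [hκ']; ring
  have hLK : L ^ κ' ≤ (k : ℝ) ^ (2 * κ') := by
    rw [pow_mul]
    exact pow_le_pow_left₀ hL0.le hLK2 _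
  obtain ⟨z, hz⟩ : ∃ z, z = ⌈L ^ E'⌉₊ := ⟨_, rfl⟩
  have hz1 : L ^ E' ≤ z := by rw [hz]; exact Nat.le_ceil _
  have hz2 : (z : ℝ) ≤ L ^ (E' + 1) := by
    have q1 : (z : ℝ) < L ^ E' + 1 := by rw [hz]; exact Nat.ceil_lt_add_one (by positivity)
    have q2 : 1 ≤ L ^ E' := one_le_pow₀ hL1
    rw [pow_succ]
    nlinarith
  obtain ⟨e, he⟩ : ∃ e, e = eH b (2 * κ') k := ⟨_, rfl⟩
  rw [← he] at hlaw
  have hkp : k ^ (2 * κ') ≠ 0 := pow_ne_zero _ (by omega)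
  have he0 : 2 ≤ e := by rw [he]; unfold eH; omega
  have he1 : k ^ (2 * κ') < b ^ (e - 1) := by
    rw [he]
    unfold eH
    have h5 : Nat.log b (k ^ (2 * κ')) + 2 - 1 = Nat.log b (k ^ (2 * κ')) + 1 := by omega
    rw [h5]
    exact Nat.lt_pow_succ_log_self hb1 _
  have he2 : b ^ e ≤ k ^ (2 * κ' + 2) := by
    rw [he]
    unfold eH
    rw [pow_add, pow_add]
    exact Nat.mul_le_mul (Nat.pow_log_le_self b hkp) (Nat.pow_le_pow_left (by omega) 2)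
  have hke : k + e - 1 = k + (e - 1) := by omega
  have hmul : b ^ k * k ^ (2 * κ') ≤ b ^ (k + e - 1) := by
    rw [hke, pow_add]
    exact Nat.mul_le_mul_left _ he1.le
  have hlogh : ∀ h : ℕ, h ≤ k ^ (2 * κ') → Nat.log b h ≤ e := by
    intro h hh
    rw [he]
    unfold eH
    exact (Nat.log_mono_right hh).trans (by omega)
  refine h0 k (by omega) e (by omega) he2 z (by rw [← hL]; exact (pow_le_pow_right₀ hL1 (by omega)).trans hz1) (by rw [← hL]; exact hz2)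
    ι Ω p Y hp1 (fun h hh1 hh2 => hlaw h hh1 (hlogh h hh2)) ?_ bad _ ?_
  · intro ω hω h hh1 hh2
    rw [abs_mul, Nat.abs_cast]
    have g1 : (h : ℤ) * |Y ω| ≤ ((k ^ (2 * κ') : ℕ) : ℤ) * (b : ℤ) ^ k :=
      mul_le_mul (by exact_mod_cast hh2) (hY ω hω) (abs_nonneg _) (by positivity)
    refine g1.trans ?_
    rw [mul_comm]
    exact_mod_cast hmul
  · intro ω hω hbω
    obtain ⟨hlow, x, hx1, hx2, hx3⟩ := hbad ω hω hbω
    have hYpos : 0 < Y ω := by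
      by_contra hcon
      push Not at hcon
      have g1 : Y ω * (k : ℤ) ^ κ ≤ 0 := mul_nonpos_of_nonpos_of_nonneg hcon (by positivity)
      have g2 : (0 : ℤ) < (b : ℤ) ^ k := by positivity
      linarith
    obtain ⟨Q, hQ⟩ : ∃ Q : ℕ, Q = (Y ω).toNat := ⟨_, rfl⟩
    have hQY : (Q : ℤ) = Y ω := by rw [hQ]; exact Int.toNat_of_nonneg hYpos.le
    have hQr : (Y ω : ℝ) = (Q : ℝ) := by rw [← hQY]; push_cast; rfl
    rw [← hQ, hQr] at hx3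
    rw [hQr] at hx1 hx2
    rw [← hQY] at hlow
    have hQle : Q ≤ b ^ k := by
      have g1 := (le_abs_self _).trans (hY ω hω)
      rw [← hQY] at g1
      exact_mod_cast g1
    by_contra hcon
    push Not at hcon
    apply hx3
    apply h1 (b ^ k) (by omega) z (by rw [← hL]; exact (pow_le_pow_right₀ hL1 (by omega)).trans hz1) (by rw [← hL]; exact hz2) Q hQle
    · rw [← hL]
      have e1 : ((b ^ k : ℕ) : ℝ) ≤ (Q : ℝ) * (k : ℝ) ^ κ := by exact_mod_cast hlow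
      exact e1.trans (mul_le_mul_of_nonneg_left hKL (Nat.cast_nonneg _))
    · exact hx1
    · rw [← hL]
      exact hx2.trans (mul_le_mul_of_nonneg_left hKL (Nat.cast_nonneg _))
    · intro h hh1 hh2 N₁ hN₁
      rw [← hL] at hh2 hN₁ ⊢
      have e1 : h ≤ k ^ (2 * κ') := by exact_mod_cast hh2.trans hLK
      have e2 : N₁ ≤ b ^ k * k ^ (2 * κ') := by
        have e3 : (N₁ : ℝ) ≤ ((b ^ k : ℕ) : ℝ) * (k : ℝ) ^ (2 * κ') := hN₁.trans (mul_le_mul_of_nonneg_left hLK (Nat.cast_nonneg _))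
        exact_mod_cast e3
      have e4 := hcon h N₁ hh1 e1 (e2.trans hmul)
      have e5 : cz z N₁ (h * Q) = ∑ n ∈ Icc 1 N₁, ArithmeticFunction.vonMangoldt n *
          (lamI ((n : ℤ) + (h : ℤ) * Y ω) - lamzI z ((n : ℤ) + (h : ℤ) * Y ω)) := by
        unfold cz
        rw [← hQY]
        push_cast
        rfl
      rw [← e5] at e4
      refine e4.trans ?_
      push_cast
      apply div_le_div_of_nonneg_left (by positivity) (by positivity)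
      calc L ^ (2 * κ') = (L ^ κ') ^ 2 := by rw [← pow_mul, mul_comm]
        _ ≤ ((k : ℝ) ^ (2 * κ')) ^ 2 := pow_le_pow_left₀ (by positivity) hLK 2
        _ = (k : ℝ) ^ (4 * κ') := by rw [← pow_mul]; congr 1; ring

end Pool.Agent.Y958.RM
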