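import Pool.Agent.Y958.RM.Main
import Pool.Agent.Y885.RS4

set_option autoImplicit false

/-! Hooley's variance conjecture for random moduli: sums of independent random integers. -/

namespace Pool.Agent.Y958.RM
open Finset
open Pool.Agent.Y885
open Pool.Agent.TH894.PV (G)

/-- the formula fails for the modulus `Q` -/
def BadQ (ε : ℝ) (κ k b : ℕ) (Q : ℤ) : Prop := (b : ℤ) ^ k ≤ Q * (k : ℤ) ^ κ ∧ ∃ x : ℝ, (Q : ℝ) ≤ x ∧ x ≤ Q * (k : ℝ) ^ κ ∧
  ¬ |G x Q.toNat - x * Real.log Q| ≤ ε * (x * Real.log Q)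

/-- the number of the additional positions -/
lemma eH_le (b B H : ℕ) (hb : 2 ≤ b) : ∃ k₀ : ℕ, ∀ k : ℕ, k₀ ≤ k →
    ((2 * B + eH b H (k + 2 * B) : ℕ) : ℝ) ≤ ((4 * H + 2 * B + 2 : ℕ) : ℝ) * Real.log k := by
  refine ⟨3 + 2 * B, fun k hk => ?_⟩
  have hk0 : (0 : ℝ) < k := by exact_mod_cast (by omega : 0 < k)
  have hlog : 1 ≤ Real.log k := by
    rw [Real.le_log_iff_exp_le hk0]
    have := Real.exp_one_lt_d9
    have h3 : (3 : ℝ) ≤ k := by exact_mod_cast (by omega : 3 ≤ k)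
    linarith
  have h1 : (Nat.log b ((k + 2 * B) ^ H) : ℝ) ≤ 4 * H * Real.log k := by
    have h2 : b ^ Nat.log b ((k + 2 * B) ^ H) ≤ (k + 2 * B) ^ H := Nat.pow_log_le_self b (pow_ne_zero _ (by omega))
    have h3 : (2 : ℝ) ^ Nat.log b ((k + 2 * B) ^ H) ≤ ((k : ℝ) ^ 2) ^ H := by
      have g1 : 2 ^ Nat.log b ((k + 2 * B) ^ H) ≤ (k ^ 2) ^ H := by
        refine (Nat.pow_le_pow_left hb _).trans (h2.trans (Nat.pow_le_pow_left ?_ _))
        nlinarith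
      exact_mod_cast g1
    have h4 := Real.log_le_log (by positivity) h3
    rw [Real.log_pow, Real.log_pow, Real.log_pow] at h4
    have h5 := Real.log_two_gt_d9
    have h6 : (0 : ℝ) ≤ (Nat.log b ((k + 2 * B) ^ H) : ℝ) := Nat.cast_nonneg _
    push_cast at h4
    nlinarith
  unfold eH
  push_cast
  have h7 : (0 : ℝ) ≤ (B : ℝ) := Nat.cast_nonneg _
  nlinarith

open Classical in
theorem rnd (hLAWH : LAWH) (hCOR : COR) (b B D κ U : ℕ) (hb : 2 ≤ b) (hB : 1 ≤ B) (η δ ε : ℝ) (hη : 0 < η) (hδ : 0 < δ) (hε : 0 < ε)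
    (hε1 : ε ≤ 1) : ∃ k₀ : ℕ, ∀ k : ℕ, k₀ ≤ k → ∀ (J : Finset ℕ) (s : ℕ → Finset ℤ) (p : ℕ → ℤ → ℝ) (C : ℤ), Rich δ D k J →
    (∀ j < k, (∀ x ∈ s j, 0 ≤ p j x ∧ |x| ≤ (B : ℤ) * (b : ℤ) ^ j) ∧ ∑ x ∈ s j, p j x = 1) →
    (∀ j ∈ J, ∀ y : ℤ, ∑ x ∈ s j, (if y ≤ x ∧ (B : ℤ) * (x - y) ≤ (b : ℤ) ^ j then p j x else 0) ≤ 1 - η) →
    |C| ≤ (B : ℤ) * (b : ℤ) ^ k →
    ∑ ω ∈ Fintype.piFinset (fun j : Fin k => s j), (if BadQ ε κ k b (C + ∑ j : Fin k, ω j) then ∏ j : Fin k, p j (ω j) else 0) ≤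
      1 / (k : ℝ) ^ U := by
  obtain ⟨E, hE, hL⟩ := hLAWH b hb B D hB η δ hη hδ
  obtain ⟨V, hV⟩ := main hCOR (κ + 1) U b E hb hE
  obtain ⟨H, hH⟩ : ∃ H, H = 2 * (κ + 1 + 1) := ⟨_, rfl⟩
  rw [← hH] at hV
  obtain ⟨c, k1, h1⟩ := hL (4 * H + 2 * B + 2) V
  obtain ⟨k2, h2⟩ := hV ε hε hε1 c
  obtain ⟨k3, h3⟩ := eH_le b B H hb
  refine ⟨k1 + k2 + k3 + b ^ (2 * B) + 1, fun k hk J s p C hR hps hspread hC => ?_⟩
  have hk1 : 1 ≤ k := by omega
  obtain ⟨e, he⟩ : ∃ e, e = eH b H (k + 2 * B) := ⟨_, rfl⟩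
  have hke : k + 2 * B + e = k + (2 * B + e) := by ring
  have hsupp : ∀ j < k, ∀ x ∈ s j, |x| ≤ (B : ℤ) * (b : ℤ) ^ j := fun j hj x hx => ((hps j hj).1 x hx).2
  have key := h2 (k + 2 * B) (by omega) (Fin k → ℤ) (Fintype.piFinset (fun j : Fin k => s j)) (fun ω => ∏ j : Fin k, p j (ω j))
    (fun ω => C + ∑ j : Fin k, ω j) (by
      rw [← Finset.prod_univ_sum (fun j : Fin k => s j) (fun j x => p j x)]
      exact prod_eq_one fun j _ => (hps j j.2).2) (by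
      intro h hh1 hh2
      rw [← he] at hh2 ⊢
      rw [hke]
      exact h1 k (by omega) (2 * B + e) (by rw [he]; exact h3 k (by omega)) h hh1 (by omega) J s p C hR hps hspread)
    (rand_le b B k hb s C hsupp hC)
    (fun ω => BadQ ε κ k b (C + ∑ j : Fin k, ω j)) (fun _ => Classical.propDecidable _) (by
      intro ω _ hω
      obtain ⟨g1, x, g2, g3, g4⟩ := hω
      obtain ⟨Q, hQ⟩ : ∃ Q : ℤ, Q = C + ∑ j : Fin k, ω j := ⟨_, rfl⟩
      simp only [← hQ] at g1 g2 g3 g4 ⊢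
      have hQ0 : 0 ≤ Q := by
        by_contra hcon
        push Not at hcon
        have e1 : Q * (k : ℤ) ^ κ ≤ 0 := mul_nonpos_of_nonpos_of_nonneg hcon.le (by positivity)
        have e2 : (0 : ℤ) < (b : ℤ) ^ k := by positivity
        linarith
      refine ⟨?_, x, g2, g3.trans ?_, g4⟩
      · have e1 : (b : ℤ) ^ (k + 2 * B) ≤ (Q * (k : ℤ) ^ κ) * (k : ℤ) := by
          rw [pow_add]
          apply mul_le_mul g1 _ (by positivity) (mul_nonneg hQ0 (by positivity))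
          exact_mod_cast (by omega : b ^ (2 * B) ≤ k)
        have e2 : (Q * (k : ℤ) ^ κ) * (k : ℤ) ≤ Q * ((k + 2 * B : ℕ) : ℤ) ^ (κ + 1) := by
          rw [mul_assoc, ← pow_succ]
          apply mul_le_mul_of_nonneg_left _ hQ0
          apply pow_le_pow_left₀ (by positivity)
          push_cast
          have : (0 : ℤ) ≤ (B : ℤ) := Int.natCast_nonneg _
          linarith
        exact e1.trans e2
      · apply mul_le_mul_of_nonneg_left _ (by exact_mod_cast hQ0)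
        have e1 : (1 : ℝ) ≤ k := by exact_mod_cast hk1
        have e2 : (k : ℝ) ≤ ((k + 2 * B : ℕ) : ℝ) := by exact_mod_cast (by omega : k ≤ k + 2 * B)
        calc (k : ℝ) ^ κ ≤ (k : ℝ) ^ (κ + 1) := pow_le_pow_right₀ e1 (by omega)
          _ ≤ _ := pow_le_pow_left₀ (by positivity) e2 _)
  refine (le_trans (le_of_eq ?_) key).trans ?_
  · apply sum_congr rfl
    intro ω _
    rfl
  · have e1 : (1 : ℝ) ≤ k := by exact_mod_cast hk1
    apply one_div_le_one_div_of_le (by positivity)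
    apply pow_le_pow_left₀ (by positivity)
    exact_mod_cast (by omega : k ≤ k + 2 * B)

open Classical in
/-- integers with restricted and prescribed digits -/
theorem rand_digits' (b : ℕ) (hb : 2 ≤ b) (U k : ℕ) (Bad : ℤ → Prop) (J : Finset ℕ)
    (hrs : ∀ (s : ℕ → Finset ℤ) (p : ℕ → ℤ → ℝ) (c : ℤ),
    (∀ j < k, (∀ x ∈ s j, 0 ≤ p j x ∧ |x| ≤ (b : ℤ) * (b : ℤ) ^ j) ∧ ∑ x ∈ s j, p j x = 1) →
    (∀ j ∈ J, ∀ y : ℤ, ∑ x ∈ s j, (if y ≤ x ∧ (b : ℤ) * (x - y) ≤ (b : ℤ) ^ j then p j x else 0) ≤ 1 - 1 / 2) →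
    |c| ≤ (b : ℤ) * (b : ℤ) ^ k →
    ∑ ω ∈ Fintype.piFinset (fun j : Fin k => s j), (if Bad (c + ∑ j : Fin k, ω j) then ∏ j : Fin k, p j (ω j) else 0) ≤ 1 / (k : ℝ) ^ U)
    (A : ℕ → Finset ℕ) (hA : ∀ j < k, (A j).Nonempty ∧ ∀ a ∈ A j, a < b) (hAJ : ∀ j ∈ J, 2 ≤ (A j).card) :
    (((range (b ^ k)).filter (fun n : ℕ => (∀ j < k, n / b ^ j % b ∈ A j) ∧ Bad (n : ℤ))).card : ℝ) ≤
      (∏ j ∈ range k, ((A j).card : ℝ)) / (k : ℝ) ^ U := by
  have hb0 : 0 < b := by omega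
  obtain ⟨s, hs⟩ : ∃ s : ℕ → Finset ℤ, s = fun j => (A j).image (fun a : ℕ => (a : ℤ) * (b : ℤ) ^ j) := ⟨_, rfl⟩
  obtain ⟨p, hp⟩ : ∃ p : ℕ → ℤ → ℝ, p = fun j _ => 1 / ((A j).card : ℝ) := ⟨_, rfl⟩
  have hbz : ∀ j : ℕ, (0 : ℤ) < (b : ℤ) ^ j := fun j => by positivity
  have hinj : ∀ j : ℕ, Function.Injective (fun a : ℕ => (a : ℤ) * (b : ℤ) ^ j) := by
    intro j x y hxy
    have := mul_right_cancel₀ (hbz j).ne' hxy
    exact_mod_cast this
  have hA0 : ∀ j < k, (0 : ℝ) < (A j).card := fun j hj => by exact_mod_cast card_pos.2 (hA j hj).1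
  have hmain := hrs s p 0 (by
      intro j hj
      constructor
      · intro x hx
        rw [hp]
        refine ⟨by positivity, ?_⟩
        rw [hs] at hx
        obtain ⟨a, ha, rfl⟩ := mem_image.1 hx
        have h1 := (hA j hj).2 a ha
        rw [abs_of_nonneg (by positivity)]
        apply mul_le_mul_of_nonneg_right _ (by positivity)
        exact_mod_cast h1.le
      · rw [hs, hp]
        simp only
        rw [sum_image (fun x _ y _ h => hinj j h), sum_const, nsmul_eq_mul]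
        have := hA0 j hj
        field_simp) (by
      intro j hj y
      have h2 : (2 : ℝ) ≤ (A j).card := by exact_mod_cast hAJ j hj
      rw [hs, hp]
      simp only
      rw [← sum_filter, sum_const, nsmul_eq_mul]
      have h3 : (((A j).image (fun a : ℕ => (a : ℤ) * (b : ℤ) ^ j)).filter (fun x => y ≤ x ∧ (b : ℤ) * (x - y) ≤ (b : ℤ) ^ j)).card ≤ 1 := by
        rw [card_le_one]
        intro x hx x' hx'
        rw [mem_filter] at hx hx'
        obtain ⟨a, _, rfl⟩ := mem_image.1 hx.1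
        obtain ⟨a', _, rfl⟩ := mem_image.1 hx'.1
        have hbj := hbz j
        have h2b : (2 : ℤ) ≤ b := by exact_mod_cast hb
        have key : ∀ u v : ℕ, y ≤ (u : ℤ) * (b : ℤ) ^ j → (b : ℤ) * ((v : ℤ) * (b : ℤ) ^ j - y) ≤ (b : ℤ) ^ j → v ≤ u := by
          intro u v h4 h5
          by_contra hcon
          push Not at hcon
          have h6 : (u : ℤ) + 1 ≤ v := by exact_mod_cast hcon
          have h7 : ((u : ℤ) + 1) * (b : ℤ) ^ j ≤ v * (b : ℤ) ^ j := mul_le_mul_of_nonneg_right h6 hbj.le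
          have h8 : (b : ℤ) ^ j ≤ (v : ℤ) * (b : ℤ) ^ j - y := by linarith
          have h9 : (b : ℤ) * (b : ℤ) ^ j ≤ (b : ℤ) * ((v : ℤ) * (b : ℤ) ^ j - y) := mul_le_mul_of_nonneg_left h8 (by positivity)
          nlinarith
        have h4 := key a a' hx.2.1 hx'.2.2
        have h5 := key a' a hx'.2.1 hx.2.2
        rw [le_antisymm h4 h5]
      have h4 : ((((A j).image (fun a : ℕ => (a : ℤ) * (b : ℤ) ^ j)).filter (fun x => y ≤ x ∧ (b : ℤ) * (x - y) ≤ (b : ℤ) ^ j)).card : ℝ) ≤ 1 := by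
        exact_mod_cast h3
      have h5 : 1 / ((A j).card : ℝ) ≤ 1 / 2 := one_div_le_one_div_of_le (by norm_num) h2
      have h6 : 0 ≤ 1 / ((A j).card : ℝ) := by positivity
      nlinarith) (by rw [abs_zero]; positivity)
  -- from the integers to the digits
  obtain ⟨Q, hQ⟩ : ∃ Q, Q = (range (b ^ k)).filter (fun n : ℕ => (∀ j < k, n / b ^ j % b ∈ A j) ∧ Bad (n : ℤ)) := ⟨_, rfl⟩
  rw [← hQ]
  obtain ⟨φ, hφ⟩ : ∃ φ : ℕ → (Fin k → ℤ), φ = fun (n : ℕ) (j : Fin k) => ((n / b ^ (j : ℕ) % b : ℕ) : ℤ) * (b : ℤ) ^ (j : ℕ) := ⟨_, rfl⟩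
  have hφs : ∀ n < b ^ k, ∑ j : Fin k, φ n j = (n : ℤ) := by
    intro n hn
    have h1 := dig_sum b k n
    rw [Nat.mod_eq_of_lt hn] at h1
    rw [hφ]
    simp only
    exact_mod_cast h1
  have hpr : ∀ ω : Fin k → ℤ, ∏ j : Fin k, p j (ω j) = 1 / ∏ j ∈ range k, ((A j).card : ℝ) := by
    intro ω
    rw [hp]
    simp only
    rw [Fin.prod_univ_eq_prod_range (fun j => 1 / ((A j).card : ℝ)) k]
    simp only [one_div, prod_inv_distrib]
  have hP0 : 0 < ∏ j ∈ range k, ((A j).card : ℝ) := prod_pos fun j hj => hA0 j (mem_range.1 hj)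
  have h1 : (Q.card : ℝ) * (1 / ∏ j ∈ range k, ((A j).card : ℝ)) ≤ 1 / (k : ℝ) ^ U := by
    refine le_trans ?_ hmain
    rw [← nsmul_eq_mul, ← sum_const]
    have h2 : ∑ n ∈ Q, (1 / ∏ j ∈ range k, ((A j).card : ℝ)) = ∑ ω ∈ Q.image φ, (if Bad (0 + ∑ j : Fin k, ω j) then
        ∏ j : Fin k, p j (ω j) else 0) := by
      rw [sum_image]
      · apply sum_congr rfl
        intro n hn
        rw [hQ, mem_filter, mem_range] at hn
        rw [zero_add, hφs n hn.1, if_pos, hpr]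
        exact hn.2.2
      · intro n hn n' hn' heq
        rw [mem_coe, hQ, mem_filter, mem_range] at hn hn'
        have h3 := hφs n hn.1
        rw [heq, hφs n' hn'.1] at h3
        exact_mod_cast h3.symm
    rw [h2]
    apply sum_le_sum_of_subset_of_nonneg
    · intro ω hω
      obtain ⟨n, hn, rfl⟩ := mem_image.1 hω
      rw [hQ, mem_filter, mem_range] at hn
      rw [Fintype.mem_piFinset]
      intro j
      rw [hs, hφ]
      exact mem_image.2 ⟨n / b ^ (j : ℕ) % b, hn.2.1 j j.2, rfl⟩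
    · intro ω _ _
      split_ifs
      · rw [hpr]; positivity
      · exact le_rfl
  rw [mul_one_div, div_le_iff₀ hP0] at h1
  rw [div_eq_mul_one_div, mul_comm]
  exact h1

end Pool.Agent.Y958.RM
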