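import Pool.Agent.Y885.LW2
import Pool.Agent.Y885.TU1

set_option autoImplicit false

/-! Hooley's variance conjecture for random moduli: statements. -/

namespace Pool.Agent.Y958.RM
open Finset
open Pool.Agent.H373R2.T7
open Pool.Agent.Y885

open Classical in
/-- all the multiples of a sum of independent random integers have a thin large spectrum -/
def LAWH : Prop := ∀ b : ℕ, 2 ≤ b → ∀ B D : ℕ, 1 ≤ B → ∀ η δ : ℝ, 0 < η → 0 < δ →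
    ∃ E : ℕ, 1 ≤ E ∧ ∀ W V : ℕ, ∃ c k₀ : ℕ, ∀ k : ℕ, k₀ ≤ k → ∀ e : ℕ, (e : ℝ) ≤ W * Real.log k → ∀ h : ℕ, 1 ≤ h → Nat.log b h ≤ e →
    ∀ (J : Finset ℕ) (s : ℕ → Finset ℤ) (p : ℕ → ℤ → ℝ) (C : ℤ),
    Rich δ D k J →
    (∀ j < k, (∀ x ∈ s j, 0 ≤ p j x ∧ |x| ≤ (B : ℤ) * (b : ℤ) ^ j) ∧ ∑ x ∈ s j, p j x = 1) →
    (∀ j ∈ J, ∀ y : ℤ, ∑ x ∈ s j, (if y ≤ x ∧ (B : ℤ) * (x - y) ≤ (b : ℤ) ^ j then p j x else 0) ≤ 1 - η) →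
    TLaw b E c V (k + e) (Fintype.piFinset (fun j : Fin k => s j)) (fun ω => ∏ j : Fin k, p j (ω j))
      (fun ω => (h : ℤ) * (C + ∑ j : Fin k, ω j))

/-- few random elements of a set which meets every `[x, l x]` -/
def LASH : Prop := ∀ l : ℕ, 2 ≤ l → ∀ V : ℕ, ∃ C : ℝ, ∀ W : ℕ, ∃ c N₀ : ℕ, ∀ A : Set ℕ,
    (∀ x : ℕ, 1 ≤ x → ∃ a ∈ A, x ≤ a ∧ a ≤ l * x) → ∀ N : ℕ, N₀ ≤ N → ∀ e : ℕ, (e : ℝ) ≤ W * Real.log (Real.log N) → ∀ P : ℤ → Prop,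
    (∀ (ι : Type) (Ω : Finset ι) (p : ι → ℝ) (Y : ι → ℤ), ∑ ω ∈ Ω, p ω = 1 →
      (∀ h : ℕ, 1 ≤ h → Nat.log (4 * l) h ≤ e → TLaw (4 * l) 20 c V (Nat.log (4 * l) N + 1 + e) Ω p (fun ω => (h : ℤ) * Y ω)) →
      (∀ ω ∈ Ω, (N : ℤ) ≤ 2 * Y ω ∧ Y ω ≤ N) → ∀ bad : ι → Prop, ∀ _hdec : DecidablePred bad,
      (∀ ω ∈ Ω, bad ω → ¬ P (Y ω)) → ∑ ω ∈ Ω, (if bad ω then p ω else 0) ≤ 1 / 2) →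
    ∃ S : Finset ℕ, (∀ a ∈ S, a ∈ A) ∧ (S.card : ℝ) ≤ C * Real.log (Real.log N) ^ 2 ∧ 2 * ∑ a ∈ S, a ≤ N ∧
      P ((N : ℤ) - ((∑ a ∈ S, a : ℕ) : ℤ))

/-- the correlations of the primes with the error of the sieve model, for all multiples of a random integer at once -/
def COR : Prop := ∀ b E H W V₁ U : ℕ, 2 ≤ b → 1 ≤ E → ∃ V : ℕ, ∀ c : ℕ, ∃ B₀ : ℕ, ∀ Ez : ℕ, ∃ k₀ : ℕ, ∀ k : ℕ, k₀ ≤ k →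
    ∀ e : ℕ, 1 ≤ e → b ^ e ≤ k ^ W → ∀ z : ℕ, Real.log ((b ^ k : ℕ) : ℝ) ^ B₀ ≤ z → (z : ℝ) ≤ Real.log ((b ^ k : ℕ) : ℝ) ^ Ez →
    ∀ (ι : Type) (Ω : Finset ι) (p : ι → ℝ) (Y : ι → ℤ), ∑ ω ∈ Ω, p ω = 1 →
    (∀ h : ℕ, 1 ≤ h → h ≤ k ^ H → TLaw b E c V (k + e) Ω p (fun ω => (h : ℤ) * Y ω)) →
    (∀ ω ∈ Ω, ∀ h : ℕ, 1 ≤ h → h ≤ k ^ H → |(h : ℤ) * Y ω| ≤ (b : ℤ) ^ (k + e - 1)) →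
    ∀ bad : ι → Prop, ∀ _hdec : DecidablePred bad,
    (∀ ω ∈ Ω, bad ω → ∃ h N₁ : ℕ, 1 ≤ h ∧ h ≤ k ^ H ∧ N₁ ≤ b ^ (k + e - 1) ∧ (b : ℝ) ^ k / (k : ℝ) ^ V₁ <
      |∑ n ∈ Icc 1 N₁, ArithmeticFunction.vonMangoldt n * (lamI ((n : ℤ) + (h : ℤ) * Y ω) - lamzI z ((n : ℤ) + (h : ℤ) * Y ω))|) →
    ∑ ω ∈ Ω, (if bad ω then p ω else 0) ≤ 1 / (k : ℝ) ^ U

end Pool.Agent.Y958.RM
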